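import Pool.Agent.Work.MP_10bfef_nt_helper63.Basic

/-!
# Van Eck's sequence: an upper bound for the number of zeros in a window
-/

namespace Pool.Agent.Work.MP_10bfef_nt_helper63

open N913ddd84 Finset

/-- The truncated value `min (a n) N`. -/
def c (N n : ℕ) : ℕ := min (a n) N

lemma gapsum (v s N e : ℕ) (he : s ≤ e) :
    (∑ n ∈ (Ico s e).filter (fun n => a n = v), c N (n + 1) = 0) ∨
      ∃ l, s ≤ l ∧ l < e ∧ a l = v ∧
        ∑ n ∈ (Ico s e).filter (fun n => a n = v), c N (n + 1) ≤ N + (l - s) := by
  induction e, he using Nat.le_induction with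
  | base => left; simp
  | succ e he ih =>
    have hIco : Ico s (e + 1) = insert e (Ico s e) := by
      ext x; simp only [mem_Ico, mem_insert]; omega
    rw [hIco, Finset.filter_insert]
    by_cases hv : a e = v
    · rw [if_pos hv, Finset.sum_insert (by simp)]
      right
      refine ⟨e, he, by omega, hv, ?_⟩
      rcases ih with h0 | ⟨l, h1, h2, h3, h4⟩
      · rw [h0]
        have : c N (e + 1) ≤ N := min_le_right _ _
        omega
      · have h5 : a (e + 1) ≤ e - l := gap_le h2 (by rw [h3, hv])
        have h6 : c N (e + 1) ≤ a (e + 1) := min_le_left _ _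
        omega
    · rw [if_neg hv]
      rcases ih with h0 | ⟨l, h1, h2, h3, h4⟩
      · left; exact h0
      · right; exact ⟨l, h1, by omega, h3, h4⟩

lemma gapsum_le (v s N : ℕ) :
    ∑ n ∈ (Ico s (s + N)).filter (fun n => a n = v), c N (n + 1) ≤ 2 * N := by
  rcases gapsum v s N (s + N) (by omega) with h | ⟨l, h1, h2, h3, h4⟩
  · omega
  · omega

/-- The sum of the reciprocals of truncated distinct values. -/
lemma recip_sum (A : Finset ℕ) (N : ℕ) (hA : A.card ≤ N) :
    ∑ v ∈ A, (1 : ℝ) / (1 + (min v N : ℕ)) ≤ 2 + Real.log N := by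
  have h1 : ∑ v ∈ A, (1 : ℝ) / (1 + (min v N : ℕ)) ≤
      ∑ v ∈ A.filter (· < N), (1 : ℝ) / (1 + v) + ∑ v ∈ A, (1 : ℝ) / (1 + N) := by
    rw [Finset.sum_filter, ← Finset.sum_add_distrib]
    apply Finset.sum_le_sum
    intro v _
    by_cases hv : v < N
    · rw [if_pos hv, min_eq_left hv.le]
      have : (0 : ℝ) ≤ 1 / (1 + N) := by positivity
      linarith
    · rw [if_neg hv, min_eq_right (by omega)]
      linarith
  have h2 : ∑ v ∈ A.filter (· < N), (1 : ℝ) / (1 + v) ≤ ∑ v ∈ range N, (1 : ℝ) / (1 + v) := by
    apply Finset.sum_le_sum_of_subset_of_nonneg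
    · intro v hv
      rw [Finset.mem_filter] at hv
      exact Finset.mem_range.mpr hv.2
    · intro v _ _
      positivity
  have h3 : ∑ v ∈ range N, (1 : ℝ) / (1 + v) ≤ 1 + Real.log N := by
    have h := harmonic_le_one_add_log N
    unfold harmonic at h
    push_cast at h
    refine le_trans (le_of_eq ?_) h
    apply Finset.sum_congr rfl
    intro v _
    rw [one_div, add_comm]
  have h4 : ∑ v ∈ A, (1 : ℝ) / (1 + N) ≤ 1 := by
    rw [Finset.sum_const, nsmul_eq_mul, mul_one_div, div_le_one (by positivity)]
    have : (A.card : ℝ) ≤ N := by exact_mod_cast hA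
    linarith
  linarith

lemma ratio_sum (s N : ℕ) :
    ∑ n ∈ Ico s (s + N), ((1 : ℝ) + c N (n + 1)) / (1 + c N n) ≤ 3 * N * (2 + Real.log N) := by
  classical
  set A := (Ico s (s + N)).image a with hA
  have hcard : A.card ≤ N := by
    refine Finset.card_image_le.trans ?_
    rw [Nat.card_Ico]
    omega
  rw [← Finset.sum_fiberwise_of_maps_to (s := Ico s (s + N)) (t := A) (g := a)
    (fun n hn => Finset.mem_image_of_mem a hn)]
  have h1 : ∀ v ∈ A, ∑ n ∈ (Ico s (s + N)).filter (fun n => a n = v),
      ((1 : ℝ) + c N (n + 1)) / (1 + c N n) ≤ 3 * N * (1 / (1 + (min v N : ℕ))) := by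
    intro v _
    have h2 : ∑ n ∈ (Ico s (s + N)).filter (fun n => a n = v),
        ((1 : ℝ) + c N (n + 1)) / (1 + c N n) =
        (∑ n ∈ (Ico s (s + N)).filter (fun n => a n = v), ((1 : ℝ) + c N (n + 1))) *
          (1 / (1 + (min v N : ℕ))) := by
      rw [Finset.sum_mul]
      apply Finset.sum_congr rfl
      intro n hn
      rw [Finset.mem_filter] at hn
      unfold c
      rw [hn.2]
      ring
    rw [h2]
    apply mul_le_mul_of_nonneg_right _ (by positivity)
    rw [Finset.sum_add_distrib, Finset.sum_const, nsmul_eq_mul, mul_one]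
    have h3 : ((∑ n ∈ (Ico s (s + N)).filter (fun n => a n = v), c N (n + 1) : ℕ) : ℝ) ≤
        2 * N := by exact_mod_cast gapsum_le v s N
    push_cast at h3
    have h4 : (((Ico s (s + N)).filter (fun n => a n = v)).card : ℝ) ≤ N := by
      have h5 := Finset.card_filter_le (Ico s (s + N)) (fun n => a n = v)
      rw [Nat.card_Ico] at h5
      have h6 : ((Ico s (s + N)).filter (fun n => a n = v)).card ≤ N := by omega
      exact_mod_cast h6
    linarith
  refine (Finset.sum_le_sum h1).trans ?_
  rw [← Finset.mul_sum]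
  exact mul_le_mul_of_nonneg_left (recip_sum A N hcard) (by positivity)

/-- The logarithmic potential. -/
noncomputable def psi (N n : ℕ) : ℝ := Real.log (1 + c N n)

lemma psi_nonneg (N n : ℕ) : 0 ≤ psi N n := Real.log_nonneg (by
  have : (0 : ℝ) ≤ c N n := by positivity
  linarith)

lemma psi_le (N n : ℕ) : psi N n ≤ Real.log (1 + N) := by
  apply Real.log_le_log (by positivity)
  have : (c N n : ℝ) ≤ N := by exact_mod_cast min_le_right _ _
  linarith

lemma pos_part_sum (s N : ℕ) :
    ∑ n ∈ Ico s (s + N), max (psi N (n + 1) - psi N n) 0 ≤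
      N * Real.log (7 + 3 * Real.log N) := by
  have hlog : 0 ≤ Real.log N := Real.log_natCast_nonneg N
  set m : ℝ := 7 + 3 * Real.log N with hm
  have hm0 : 0 < m := by positivity
  have h1 : ∀ n ∈ Ico s (s + N), max (psi N (n + 1) - psi N n) 0 ≤
      (1 + ((1 : ℝ) + c N (n + 1)) / (1 + c N n)) / m - 1 + Real.log m := by
    intro n _
    set r : ℝ := ((1 : ℝ) + c N (n + 1)) / (1 + c N n) with hr
    have hr0 : 0 < r := by positivity
    have h2 : psi N (n + 1) - psi N n = Real.log r := by
      unfold psi
      rw [hr, Real.log_div (by positivity) (by positivity)]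
    have h3 : max (psi N (n + 1) - psi N n) 0 ≤ Real.log (1 + r) := by
      rw [h2]
      apply max_le
      · exact Real.log_le_log hr0 (by linarith)
      · exact Real.log_nonneg (by linarith)
    have h4 : Real.log ((1 + r) / m) ≤ (1 + r) / m - 1 :=
      Real.log_le_sub_one_of_pos (by positivity)
    rw [Real.log_div (by positivity) (by positivity)] at h4
    linarith
  refine (Finset.sum_le_sum h1).trans ?_
  rw [Finset.sum_add_distrib, Finset.sum_sub_distrib, ← Finset.sum_div, Finset.sum_add_distrib,
    Finset.sum_const, Finset.sum_const, Nat.card_Ico, Nat.add_sub_cancel_left]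
  have h5 := ratio_sum s N
  simp only [nsmul_eq_mul, mul_one]
  have h6 : ((N : ℝ) + ∑ n ∈ Ico s (s + N), ((1 : ℝ) + c N (n + 1)) / (1 + c N n)) / m ≤ N := by
    rw [div_le_iff₀ hm0]
    have : (N : ℝ) * m = N + 3 * N * (2 + Real.log N) := by rw [hm]; ring
    linarith
  linarith

lemma sum_range_le_sum_of_monotone (f : ℕ → ℝ) (hf : Monotone f) :
    ∀ (z : ℕ) (V : Finset ℕ), V.card = z → ∑ i ∈ range z, f i ≤ ∑ v ∈ V, f v := by
  intro z
  induction z with
  | zero =>
    intro V hV
    rw [Finset.card_eq_zero] at hV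
    simp [hV]
  | succ z ih =>
    intro V hV
    have hne : V.Nonempty := Finset.card_pos.mp (by omega)
    have hm := Finset.max'_mem V hne
    have h1 : z ≤ V.max' hne := by
      have h2 : V ⊆ range (V.max' hne + 1) := by
        intro v hv
        rw [Finset.mem_range]
        have := Finset.le_max' V v hv
        omega
      have h3 := Finset.card_le_card h2
      rw [Finset.card_range] at h3
      omega
    have h4 := ih (V.erase (V.max' hne)) (by rw [Finset.card_erase_of_mem hm]; omega)
    rw [Finset.sum_range_succ, ← Finset.sum_erase_add _ _ hm]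
    linarith [hf h1]

/-- The basic inequality for the number `z` of zeros in `[s + 1, s + N]`. -/
theorem zeros_ineq (s N : ℕ) :
    Real.log (Nat.factorial ((Ico s (s + N)).filter (fun n => a (n + 1) = 0)).card) ≤
      N * Real.log (7 + 3 * Real.log N) + Real.log (1 + N) := by
  classical
  set Z := (Ico s (s + N)).filter (fun n => a (n + 1) = 0) with hZ
  have hcard : Z.card ≤ N := by
    have h5 : Z.card ≤ (Ico s (s + N)).card := Finset.card_filter_le _ _
    rw [Nat.card_Ico] at h5
    omega
  -- telescoping
  have htel : ∑ n ∈ Ico s (s + N), (psi N (n + 1) - psi N n) = psi N (s + N) - psi N s := by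
    rw [Finset.sum_Ico_eq_sum_range, Nat.add_sub_cancel_left]
    have := Finset.sum_range_sub (fun i => psi N (s + i)) N
    simpa [Nat.add_assoc] using this
  have hpt : ∑ n ∈ Ico s (s + N), (psi N (n + 1) - psi N n) + ∑ n ∈ Z, psi N n ≤
      ∑ n ∈ Ico s (s + N), max (psi N (n + 1) - psi N n) 0 := by
    rw [hZ, Finset.sum_filter, ← Finset.sum_add_distrib]
    apply Finset.sum_le_sum
    intro n _
    by_cases h0 : a (n + 1) = 0
    · rw [if_pos h0]
      have : psi N (n + 1) = 0 := by unfold psi c; rw [h0]; simp
      rw [this]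
      simp
    · rw [if_neg h0, add_zero]
      exact le_max_left _ _
  have hinj : Set.InjOn a (Z : Set ℕ) := by
    intro n hn n' hn' h
    have h1 : a (n + 1) = 0 := by
      have := Finset.mem_coe.mp hn
      rw [hZ, Finset.mem_filter] at this
      exact this.2
    have h2 : a (n' + 1) = 0 := by
      have := Finset.mem_coe.mp hn'
      rw [hZ, Finset.mem_filter] at this
      exact this.2
    rcases lt_trichotomy n n' with h3 | h3 | h3
    · exact absurd h (new_of_zero h2 n h3)
    · exact h3
    · exact absurd h.symm (new_of_zero h1 n' h3)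
  have hsum : ∑ n ∈ Z, psi N n = ∑ v ∈ Z.image a, Real.log (1 + (min v N : ℕ)) := by
    rw [Finset.sum_image hinj]
    rfl
  have hmono : Monotone (fun v : ℕ => Real.log (1 + (min v N : ℕ))) := by
    intro x y hxy
    apply Real.log_le_log (by positivity)
    have : min x N ≤ min y N := min_le_min_right N hxy
    have : ((min x N : ℕ) : ℝ) ≤ (min y N : ℕ) := by exact_mod_cast this
    linarith
  have hlow := sum_range_le_sum_of_monotone _ hmono Z.card (Z.image a)
    (Finset.card_image_of_injOn hinj)
  have hfac : Real.log (Nat.factorial Z.card) =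
      ∑ i ∈ range Z.card, Real.log (1 + (min i N : ℕ)) := by
    have : ∀ z ≤ N, Real.log (Nat.factorial z) = ∑ i ∈ range z, Real.log (1 + (min i N : ℕ)) := by
      intro z
      induction z with
      | zero => intro _; simp
      | succ z ih =>
        intro hz
        rw [Finset.sum_range_succ, ← ih (by omega), Nat.factorial_succ, Nat.cast_mul,
          Real.log_mul (by positivity) (by positivity), min_eq_left (by omega : z ≤ N)]
        push_cast
        rw [add_comm (1 : ℝ) (z : ℝ)]
        ring
    exact this _ hcard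
  have h1 := psi_nonneg N (s + N)
  have h2 := psi_le N s
  have h3 := pos_part_sum s N
  linarith

lemma log_factorial_ge (z : ℕ) : (z : ℝ) * Real.log z - z ≤ Real.log (Nat.factorial z) := by
  rcases Nat.eq_zero_or_pos z with rfl | hz
  · simp
  have h := Real.pow_div_factorial_le_exp (z : ℝ) (by positivity) z
  have hz' : (0 : ℝ) < z := by exact_mod_cast hz
  have hf : (0 : ℝ) < Nat.factorial z := by positivity
  have h2 := Real.log_le_log (by positivity) h
  rw [Real.log_exp, Real.log_div (by positivity) (by positivity), Real.log_pow] at h2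
  linarith

end Pool.Agent.Work.MP_10bfef_nt_helper63
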