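import Pool.Agent.Work.MP_10bfef_nt_helper63.Window
import Pool.Agent.Work.MP_10bfef_nt_helper63.Zeros

/-!
# Van Eck's sequence: asymptotic forms
-/

namespace Pool.Agent.Work.MP_10bfef_nt_helper63

open N913ddd84 Finset Filter Topology

lemma tendsto_logN : Tendsto (fun N : ℕ => Real.log N) atTop atTop :=
  Real.tendsto_log_atTop.comp tendsto_natCast_atTop_atTop

lemma tendsto_loglogN : Tendsto (fun N : ℕ => Real.log (Real.log N)) atTop atTop :=
  Real.tendsto_log_atTop.comp tendsto_logN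

lemma tendsto_log_add_div : Tendsto (fun x : ℝ => (Real.log x + 1) / x) atTop (𝓝 0) := by
  have h1 : Tendsto (fun x : ℝ => Real.log x / x) atTop (𝓝 0) := by
    have := Real.isLittleO_log_id_atTop
    simpa using this.tendsto_div_nhds_zero
  have h2 : Tendsto (fun x : ℝ => 1 / x) atTop (𝓝 0) := by
    simpa using tendsto_inv_atTop_zero (𝕜 := ℝ)
  have h3 := h1.add h2
  simp only [add_zero] at h3
  refine h3.congr (fun x => ?_)
  ring

lemma asymp_upper (ε : ℝ) (hε : 0 < ε) : ∃ N₀ : ℕ, ∀ N : ℕ, N₀ ≤ N → ∀ z : ℕ,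
    (z : ℝ) * Real.log z - z ≤ N * Real.log (7 + 3 * Real.log N) + Real.log (1 + N) →
    (z : ℝ) + 1 ≤ (1 + ε) * N * Real.log (Real.log N) / Real.log N := by
  have e1 : ∀ᶠ N : ℕ in atTop, (1 : ℝ) ≤ Real.log N := tendsto_logN.eventually_ge_atTop 1
  have e2 : ∀ᶠ N : ℕ in atTop, max (max 1 (2 / ε)) (4 * (Real.log 10 + 2) / ε) ≤
      Real.log (Real.log N) := tendsto_loglogN.eventually_ge_atTop _
  have e3 : ∀ᶠ N : ℕ in atTop, (Real.log (Real.log N) + 1) / Real.log N <
      (ε / 4) / (1 + ε / 2) :=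
    (tendsto_log_add_div.comp tendsto_logN).eventually_lt_const (by positivity)
  obtain ⟨N₀, hN₀⟩ := eventually_atTop.mp (e1.and (e2.and e3))
  refine ⟨N₀ + 1, fun N hN z hz => ?_⟩
  obtain ⟨h1, h2, h3⟩ := hN₀ N (by omega)
  have hNpos : (0 : ℝ) < N := by
    have : 0 < N := by omega
    exact_mod_cast this
  have hLN : Real.log N ≤ N := (Real.log_le_sub_one_of_pos hNpos).trans (by linarith)
  set L := Real.log N with hL
  set M := Real.log L with hM
  have hL0 : 0 < L := by linarith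
  have hM1 : 1 ≤ M := (le_max_left _ _).trans ((le_max_left _ _).trans h2)
  have hM2 : 2 / ε ≤ M := (le_max_right _ _).trans ((le_max_left _ _).trans h2)
  have hM3 : 4 * (Real.log 10 + 2) / ε ≤ M := (le_max_right _ _).trans h2
  by_contra hc
  push Not at hc
  rw [div_le_iff₀ hε] at hM2 hM3
  have hNL : 1 ≤ (N : ℝ) / L := by rw [one_le_div hL0]; exact hLN
  -- `z ≥ y`
  have hzy : (1 + ε / 2) * N * M / L ≤ z := by
    have h4 : (1 + ε) * N * M / L = (1 + ε / 2) * N * M / L + (ε / 2 * M) * (N / L) := by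
      field_simp
      ring
    have h5 : 1 ≤ (ε / 2 * M) * (N / L) := by
      calc (1 : ℝ) ≤ ε / 2 * M := by linarith
        _ = (ε / 2 * M) * 1 := by ring
        _ ≤ (ε / 2 * M) * (N / L) := mul_le_mul_of_nonneg_left hNL (by positivity)
    linarith
  have hzNL : (N : ℝ) / L ≤ z := by
    refine le_trans ?_ hzy
    have h6 : (1 + ε / 2) * N * M / L = ((1 + ε / 2) * M) * (N / L) := by ring
    rw [h6]
    have h7 : 1 ≤ (1 + ε / 2) * M := by nlinarith
    calc (N : ℝ) / L = 1 * (N / L) := by ring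
      _ ≤ ((1 + ε / 2) * M) * (N / L) := mul_le_mul_of_nonneg_right h7 (by positivity)
  have hz0 : (0 : ℝ) < z := by linarith
  have hlogz : L - M ≤ Real.log z := by
    have h8 := Real.log_le_log (by positivity) hzNL
    rw [Real.log_div hNpos.ne' hL0.ne'] at h8
    exact h8
  have hML : (M + 1) * (1 + ε / 2) < (ε / 4) * L := by
    rw [div_lt_div_iff₀ hL0 (by positivity)] at h3
    exact h3
  have hLM1 : 0 ≤ L - M - 1 := by nlinarith
  have h9 : (1 + ε / 2) * N * M / L * (L - M - 1) ≤ z * Real.log z - z := by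
    calc (1 + ε / 2) * N * M / L * (L - M - 1) ≤ z * (L - M - 1) :=
          mul_le_mul_of_nonneg_right hzy hLM1
      _ ≤ z * (Real.log z - 1) := mul_le_mul_of_nonneg_left (by linarith) hz0.le
      _ = _ := by ring
  have h10 : (1 + ε / 2) * N * M / L * (L - M - 1) =
      N * M * ((1 + ε / 2) - (M + 1) * (1 + ε / 2) / L) := by
    field_simp
    ring
  have h11 : (M + 1) * (1 + ε / 2) / L ≤ ε / 4 := by
    rw [div_le_iff₀ hL0]
    exact hML.le
  have h12 : N * M * (1 + ε / 4) ≤ N * M * ((1 + ε / 2) - (M + 1) * (1 + ε / 2) / L) :=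
    mul_le_mul_of_nonneg_left (by linarith) (by positivity)
  have h13 : Real.log (7 + 3 * L) ≤ Real.log 10 + M := by
    rw [hM, ← Real.log_mul (by norm_num) hL0.ne']
    exact Real.log_le_log (by positivity) (by linarith)
  have h14 : Real.log (1 + N) ≤ N := by
    have := Real.log_le_sub_one_of_pos (x := 1 + N) (by positivity)
    linarith
  have h15 : N * Real.log (7 + 3 * L) ≤ N * (Real.log 10 + M) :=
    mul_le_mul_of_nonneg_left h13 hNpos.le
  have h16 : N * M * (1 + ε / 4) ≤ N * (Real.log 10 + M) + N := by linarith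
  have h17 : M * (1 + ε / 4) ≤ (Real.log 10 + M) + 1 := by
    have : N * (M * (1 + ε / 4)) ≤ N * ((Real.log 10 + M) + 1) := by linarith
    exact le_of_mul_le_mul_left this hNpos
  linarith

lemma asymp_lower (ε : ℝ) (hε : 0 < ε) : ∃ N₀ : ℕ, ∀ N : ℕ, N₀ ≤ N → ∀ k : ℕ,
    N ≤ 2 * k ^ (k + 1) → (1 - ε) * Real.log N / Real.log (Real.log N) ≤ k := by
  have e1 : ∀ᶠ N : ℕ in atTop, (1 : ℝ) ≤ Real.log N := tendsto_logN.eventually_ge_atTop 1
  have e2 : ∀ᶠ N : ℕ in atTop, (1 : ℝ) ≤ Real.log (Real.log N) :=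
    tendsto_loglogN.eventually_ge_atTop _
  have e3 : ∀ᶠ N : ℕ in atTop, (Real.log (Real.log N) + 1) / Real.log N < ε :=
    (tendsto_log_add_div.comp tendsto_logN).eventually_lt_const (by positivity)
  obtain ⟨N₀, hN₀⟩ := eventually_atTop.mp (e1.and (e2.and e3))
  refine ⟨N₀ + 1, fun N hN k hk => ?_⟩
  obtain ⟨h1, h2, h3⟩ := hN₀ N (by omega)
  have hNpos : (0 : ℝ) < N := by
    have : 0 < N := by omega
    exact_mod_cast this
  set L := Real.log N with hL
  set M := Real.log L with hM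
  have hL0 : 0 < L := by linarith
  have hM0 : 0 < M := by linarith
  rw [div_lt_iff₀ hL0] at h3
  by_contra hc
  push Not at hc
  rw [lt_div_iff₀ hM0] at hc
  have hk0 : 0 < k := by
    rcases Nat.eq_zero_or_pos k with rfl | h
    · simp at hk
      omega
    · exact h
  have hkr : (0 : ℝ) < k := by exact_mod_cast hk0
  have hkL : (k : ℝ) ≤ L := by
    have h4 : (k : ℝ) * 1 ≤ k * M := mul_le_mul_of_nonneg_left h2 hkr.le
    have h5 : (1 - ε) * L ≤ L := by nlinarith
    linarith
  have hlogk : Real.log k ≤ M := Real.log_le_log hkr hkL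
  have h6 : L ≤ Real.log 2 + (k + 1) * Real.log k := by
    have h7 : (N : ℝ) ≤ 2 * (k : ℝ) ^ (k + 1) := by exact_mod_cast hk
    have h8 := Real.log_le_log hNpos h7
    rw [Real.log_mul (by norm_num) (by positivity), Real.log_pow] at h8
    push_cast at h8
    exact h8
  have h9 : ((k : ℝ) + 1) * Real.log k ≤ (k + 1) * M :=
    mul_le_mul_of_nonneg_left hlogk (by positivity)
  have h10 : Real.log 2 ≤ 1 := by
    have := Real.log_two_lt_d9
    linarith
  nlinarith

end Pool.Agent.Work.MP_10bfef_nt_helper63
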