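import Mathlib
import Pool.Prelude.Def_F_f5b54ea4

/-!
# Van Eck's sequence: basic facts, absence of overlaps, number of values in a window
-/

namespace Pool.Agent.Work.MP_10bfef_nt_helper63

open N913ddd84

lemma a_succ (n : ℕ) : a (n + 1) = match (state n).lastSeen (a n) with
      | some j => n - j
      | none => 0 := rfl

lemma lastSeen_succ (n v : ℕ) :
    (state (n + 1)).lastSeen v = if v = a n then some n else (state n).lastSeen v := by
  show Function.update (state n).lastSeen (a n) (some n) v = _
  by_cases hv : v = a n
  · subst hv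
    simp
  · rw [Function.update_of_ne hv, if_neg hv]

lemma lastSeen_spec (n : ℕ) : ∀ v : ℕ,
    (∀ j, (state n).lastSeen v = some j → j < n ∧ a j = v ∧ ∀ k, j < k → k < n → a k ≠ v) ∧
    ((state n).lastSeen v = none → ∀ j < n, a j ≠ v) := by
  induction n with
  | zero =>
    intro v
    constructor
    · intro j h
      simp [state] at h
    · intro _ j hj
      omega
  | succ n ih =>
    intro v
    rw [lastSeen_succ]
    by_cases hv : v = a n
    · rw [if_pos hv]
      constructor
      · intro j h
        have h2 : n = j := Option.some.inj h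
        subst h2
        exact ⟨by omega, hv.symm, fun k h1 h2 => by omega⟩
      · intro h
        cases h
    · rw [if_neg hv]
      obtain ⟨h1, h2⟩ := ih v
      constructor
      · intro j h
        obtain ⟨h3, h4, h5⟩ := h1 j h
        refine ⟨by omega, h4, fun k hk hk2 => ?_⟩
        rcases Nat.lt_succ_iff_lt_or_eq.mp hk2 with h6 | h6
        · exact h5 k hk h6
        · subst h6
          exact fun h => hv h.symm
      · intro h j hj
        rcases Nat.lt_succ_iff_lt_or_eq.mp hj with h6 | h6
        · exact h2 h j h6
        · subst h6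
          exact fun h => hv h.symm

/-- A zero is preceded by a new value. -/
lemma new_of_zero {n : ℕ} (h : a (n + 1) = 0) : ∀ j < n, a j ≠ a n := by
  rw [a_succ] at h
  rcases hl : (state n).lastSeen (a n) with _ | j
  · exact (lastSeen_spec n (a n)).2 hl
  · obtain ⟨h1, h2, h3⟩ := (lastSeen_spec n (a n)).1 j hl
    rw [hl] at h
    simp only at h
    omega

lemma zero_of_new {n : ℕ} (h : ∀ j < n, a j ≠ a n) : a (n + 1) = 0 := by
  rw [a_succ]
  rcases hl : (state n).lastSeen (a n) with _ | j
  · rfl
  · obtain ⟨h1, h2, h3⟩ := (lastSeen_spec n (a n)).1 j hl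
    exact absurd h2 (h j h1)

/-- A nonzero term is the distance to the previous occurrence of the preceding term. -/
lemma gap_spec {n : ℕ} (h : a (n + 1) ≠ 0) : a (n + 1) ≤ n ∧ a (n - a (n + 1)) = a n ∧
    ∀ k, n - a (n + 1) < k → k < n → a k ≠ a n := by
  have h0 := a_succ n
  rcases hl : (state n).lastSeen (a n) with _ | j
  · rw [hl] at h0
    exact absurd h0 h
  · obtain ⟨h1, h2, h3⟩ := (lastSeen_spec n (a n)).1 j hl
    rw [hl] at h0
    simp only at h0
    have h4 : n - a (n + 1) = j := by omega
    rw [h4]
    exact ⟨by omega, h2, h3⟩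

lemma gap_eq {n j : ℕ} (hj : j < n) (h1 : a j = a n) (h2 : ∀ k, j < k → k < n → a k ≠ a n) :
    a (n + 1) = n - j := by
  have h0 : a (n + 1) ≠ 0 := fun h => new_of_zero h j hj h1
  obtain ⟨h3, h4, h5⟩ := gap_spec h0
  rcases lt_trichotomy (n - a (n + 1)) j with h | h | h
  · exact absurd h1 (h5 j h hj)
  · omega
  · exact absurd h4 (h2 _ h (by omega))

lemma gap_le {n j : ℕ} (hj : j < n) (h1 : a j = a n) : a (n + 1) ≤ n - j := by
  have h0 : a (n + 1) ≠ 0 := fun h => new_of_zero h j hj h1
  obtain ⟨h3, h4, h5⟩ := gap_spec h0
  by_contra hc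
  exact h5 j (by omega) hj h1

lemma a_le (n : ℕ) : a (n + 1) ≤ n := by
  by_cases h : a (n + 1) = 0
  · omega
  · exact (gap_spec h).1

/-- Extending a coincidence of two factors to the left: if the factors of length `l + 2` starting
at `n` and `n' > n` agree and the term before `n'` occurs again among the first `l + 1` terms of
the factor, then there is a term before `n` and it is the same. -/
lemma extend_left {n n' l : ℕ} (hn : n < n') (h : ∀ i, i ≤ l + 1 → a (n + i) = a (n' + i))
    (hq : ∃ i, i ≤ l ∧ a (n' + i) = a (n' - 1)) : 0 < n ∧ a (n - 1) = a (n' - 1) := by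
  classical
  have hmin := Nat.find_spec hq
  have hmin2 : ∀ i, i < Nat.find hq → ¬ (i ≤ l ∧ a (n' + i) = a (n' - 1)) :=
    fun i hi => Nat.find_min hq hi
  generalize Nat.find hq = i at hmin hmin2
  obtain ⟨hi1, hi2⟩ := hmin
  have h1 : a (n' + i + 1) = n' + i - (n' - 1) := by
    apply gap_eq (by omega) hi2.symm
    intro k hk1 hk2 hk3
    obtain ⟨t, rfl⟩ : ∃ t, k = n' + t := ⟨k - n', by omega⟩
    exact hmin2 t (by omega) ⟨by omega, by rw [hk3, hi2]⟩
  have h2 : a (n + i + 1) = i + 1 := by
    have := h (i + 1) (by omega)
    rw [← Nat.add_assoc, ← Nat.add_assoc] at this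
    rw [this, h1]
    omega
  obtain ⟨h3, h4, h5⟩ := gap_spec (n := n + i) (by omega)
  rw [h2] at h3 h4
  refine ⟨by omega, ?_⟩
  have h6 : n + i - (i + 1) = n - 1 := by omega
  rw [h6] at h4
  rw [h4, h i (by omega), hi2]

/-- Van Eck's sequence is overlap-free: it has no factor `w w x` where `x` is the first letter of
the nonempty word `w`. -/
theorem overlap_free (s p : ℕ) (hp : 0 < p) : ∃ k, k ≤ p ∧ a (s + k + p) ≠ a (s + k) := by
  induction s with
  | zero =>
    by_contra hc
    push Not at hc
    have h := extend_left (n := 0) (n' := p) (l := p - 1) hp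
      (fun i hi => by
        have := hc i (by omega)
        rw [show p + i = 0 + i + p by omega]
        exact this.symm)
      ⟨p - 1, le_rfl, by
        have := hc (p - 1) (by omega)
        rw [show p + (p - 1) = 0 + (p - 1) + p by omega, this]
        congr 1
        omega⟩
    omega
  | succ s ih =>
    by_contra hc
    push Not at hc
    have h := extend_left (n := s + 1) (n' := s + 1 + p) (l := p - 1) (by omega)
      (fun i hi => by
        have := hc i (by omega)
        rw [show s + 1 + p + i = s + 1 + i + p by omega]
        exact this.symm)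
      ⟨p - 1, le_rfl, by
        have := hc (p - 1) (by omega)
        rw [show s + 1 + p + (p - 1) = s + 1 + (p - 1) + p by omega, this]
        congr 1
        omega⟩
    obtain ⟨_, h2⟩ := h
    obtain ⟨k, hk, hk2⟩ := ih
    rcases Nat.eq_zero_or_pos k with h0 | h0
    · subst h0
      apply hk2
      rw [show s + 1 - 1 = s + 0 by omega, show s + 1 + p - 1 = s + 0 + p by omega] at h2
      exact h2.symm
    · apply hk2
      have := hc (k - 1) (by omega)
      rw [show s + 1 + (k - 1) + p = s + k + p by omega,
        show s + 1 + (k - 1) = s + k by omega] at this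
      exact this

/-- Two positions `n < n'` of a window `[s, e)` such that every value of the window occurs in
`[n', e - 1)` cannot have equal suffixes in the window. -/
lemma no_repeat {s e n n' : ℕ} (hs : s ≤ n) (hn : n < n') (he : n' + 1 < e)
    (hall : ∀ x, s ≤ x → x < n' → ∃ m, n' ≤ m ∧ m + 1 < e ∧ a m = a x)
    (heq : ∀ i, n' + i < e → a (n + i) = a (n' + i)) : False := by
  have key : ∀ t, t ≤ n' - s → t ≤ n ∧ ∀ t', t' ≤ t → a (n - t') = a (n' - t') := by
    intro t
    induction t with
    | zero =>
      intro _
      refine ⟨by omega, fun t' ht' => ?_⟩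
      have := heq 0 (by omega)
      obtain rfl : t' = 0 := by omega
      simpa using this
    | succ t ih =>
      intro ht
      obtain ⟨h1, h2⟩ := ih (by omega)
      obtain ⟨m, hm1, hm2, hm3⟩ := hall (n' - t - 1) (by omega) (by omega)
      have h := extend_left (n := n - t) (n' := n' - t) (l := m - (n' - t)) (by omega)
        (fun i hi => by
          rcases Nat.lt_or_ge i t with hit | hit
          · have := h2 (t - i) (by omega)
            rw [show n - (t - i) = n - t + i by omega,
              show n' - (t - i) = n' - t + i by omega] at this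
            exact this
          · have := heq (i - t) (by omega)
            rw [show n + (i - t) = n - t + i by omega,
              show n' + (i - t) = n' - t + i by omega] at this
            exact this)
        ⟨m - (n' - t), le_rfl, by rw [show n' - t + (m - (n' - t)) = m by omega, hm3]⟩
      obtain ⟨h3, h4⟩ := h
      refine ⟨by omega, fun t' ht' => ?_⟩
      rcases Nat.lt_or_ge t' (t + 1) with h5 | h5
      · exact h2 t' (by omega)
      · obtain rfl : t' = t + 1 := by omega
        rw [show n - (t + 1) = n - t - 1 by omega, show n' - (t + 1) = n' - t - 1 by omega]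
        exact h4
  obtain ⟨h1, h2⟩ := key (n' - s) le_rfl
  obtain ⟨k, hk1, hk2⟩ := overlap_free (n - (n' - s)) (n' - n) (by omega)
  apply hk2
  rcases Nat.lt_or_ge (n - (n' - s) + k) n with h3 | h3
  · have := h2 (n' - s - k) (by omega)
    rw [show n - (n' - s - k) = n - (n' - s) + k by omega,
      show n' - (n' - s - k) = n - (n' - s) + k + (n' - n) by omega] at this
    exact this.symm
  · have := heq (n - (n' - s) + k - n) (by omega)
    rw [show n + (n - (n' - s) + k - n) = n - (n' - s) + k by omega,
      show n' + (n - (n' - s) + k - n) = n - (n' - s) + k + (n' - n) by omega] at this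
    exact this.symm

end Pool.Agent.Work.MP_10bfef_nt_helper63
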