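import Pool.Agent.Work.MP_10bfef_nt_helper63.Window

/-!
# Van Eck's sequence: long runs of large values occur with bounded gaps
-/

namespace Pool.Agent.Work.MP_10bfef_nt_helper63

open N913ddd84 Finset

/-- The window `[s, s + L)` contains no run of `N` consecutive terms larger than `N`. -/
def Bad (N s L : ℕ) : Prop := ∀ n, s ≤ n → n + N ≤ s + L → ∃ i < N, a (n + i) ≤ N

lemma Bad.mono {N s L s' L' : ℕ} (h : Bad N s L) (h1 : s ≤ s') (h2 : s' + L' ≤ s + L) :
    Bad N s' L' := fun n hn1 hn2 => h n (by omega) (by omega)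

/-- A set of values is avoidable if arbitrarily long bad windows avoid each of its finite
subsets. -/
def Avoidable (N : ℕ) (A : Set ℕ) : Prop :=
  ∀ F : Finset ℕ, (F : Set ℕ) ⊆ A → ∀ L, ∃ s, Bad N s L ∧ ∀ i < L, a (s + i) ∉ F

lemma avoidable_finite (N : ℕ) : Order.IsOfFiniteCharacter {A | Avoidable N A} := by
  intro A
  constructor
  · intro h B hB _ F hF L
    exact h F (hF.trans hB) L
  · intro h F hF L
    exact h F hF F.finite_toSet F subset_rfl L

/-- Otherwise there are arbitrarily long windows with a bounded number of values. -/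
lemma no_bad (N : ℕ) (hbad : ∀ L, ∃ s, Bad N s L) : False := by
  classical
  have h0 : Avoidable N ∅ := by
    intro F hF L
    obtain ⟨s, hs⟩ := hbad L
    refine ⟨s, hs, fun i _ => ?_⟩
    have : F = ∅ := by
      rw [← Finset.coe_eq_empty]
      exact Set.subset_empty_iff.mp hF
    rw [this]
    exact Finset.notMem_empty _
  obtain ⟨A, _, hA⟩ := (avoidable_finite N).exists_maximal (x := ∅) h0
  have hPA : Avoidable N A := hA.prop
  have hE : ∀ u, u ∉ A → ∃ E : Finset ℕ, ∃ L : ℕ, (E : Set ℕ) ⊆ A ∧
      ∀ s, Bad N s L → (∀ i < L, a (s + i) ∉ E) → ∃ i < L, a (s + i) = u := by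
    intro u hu
    have h1 : ¬ Avoidable N (insert u A) := by
      intro h
      have h2 := hA.le_of_ge h (Set.subset_insert u A)
      exact hu (h2 (Set.mem_insert u A))
    unfold Avoidable at h1
    push Not at h1
    obtain ⟨F, hF, L, hL⟩ := h1
    refine ⟨F.erase u, L, ?_, ?_⟩
    · intro x hx
      rw [Finset.mem_coe, Finset.mem_erase] at hx
      rcases hF (Finset.mem_coe.mpr hx.2) with h | h
      · exact absurd h hx.1
      · exact h
    · intro s hs hav
      obtain ⟨i, hi, hi2⟩ := hL s hs
      refine ⟨i, hi, ?_⟩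
      by_contra hne
      exact hav i hi (Finset.mem_erase.mpr ⟨hne, hi2⟩)
  choose! E Lf hEA hEf using hE
  -- some value is not avoidable
  obtain ⟨v, hv⟩ : ∃ v, v ∉ A := by
    by_contra hc
    push Not at hc
    obtain ⟨s, hs, hs2⟩ := hPA (range (N + 1)) (fun x _ => hc x) N
    obtain ⟨i, hi, hi2⟩ := hs s le_rfl le_rfl
    exact hs2 i hi (Finset.mem_range.mpr (by omega))
  -- the terms following an occurrence of `v` are bounded
  have hstep : ∀ j : ℕ, ∃ (F : Finset ℕ) (C B : ℕ), (F : Set ℕ) ⊆ A ∧
      ∀ s L, Bad N s L → (∀ i < L, a (s + i) ∉ F) →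
        ∀ i, B ≤ i → i + j < L → a (s + i) = v → a (s + i + j) ≤ C := by
    intro j
    induction j with
    | zero => exact ⟨∅, v, 0, by simp, fun s L _ _ i _ _ h => h.le⟩
    | succ j ih =>
      obtain ⟨F, C, B, hF, hC⟩ := ih
      set U := (range (C + 1)).filter (fun u => u ∉ A) with hU
      set F' := F ∪ (range (C + 1)).filter (fun u => u ∈ A) ∪ U.biUnion E with hF'
      set C' := U.sup Lf with hC'
      refine ⟨F', C', max B C', ?_, ?_⟩
      · intro x hx
        rw [Finset.mem_coe, hF', Finset.mem_union, Finset.mem_union, Finset.mem_filter,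
          Finset.mem_biUnion] at hx
        rcases hx with (hx | hx) | ⟨u, hu, hx⟩
        · exact hF (Finset.mem_coe.mpr hx)
        · exact hx.2
        · rw [hU, Finset.mem_filter] at hu
          exact hEA u hu.2 (Finset.mem_coe.mpr hx)
      · intro s L hs hav i hi1 hi2 hi3
        have h1 := hC s L hs (fun i hi h => hav i hi (by
          rw [hF', Finset.mem_union, Finset.mem_union]
          exact Or.inl (Or.inl h))) i ((le_max_left _ _).trans hi1) (by omega) hi3
        set u := a (s + i + j) with hu
        have huA : u ∉ A := by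
          intro h
          have h2 := hav (i + j) (by omega)
          rw [← Nat.add_assoc, ← hu] at h2
          apply h2
          rw [hF', Finset.mem_union, Finset.mem_union, Finset.mem_filter]
          exact Or.inl (Or.inr ⟨Finset.mem_range.mpr (by omega), h⟩)
        have huU : u ∈ U := by
          rw [hU, Finset.mem_filter]
          exact ⟨Finset.mem_range.mpr (by omega), huA⟩
        have hLu : Lf u ≤ C' := Finset.le_sup (f := Lf) huU
        have hCi : C' ≤ i := (le_max_right _ _).trans hi1
        obtain ⟨i', hi', hi''⟩ := hEf u huA (s + i + j - Lf u)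
          (hs.mono (by omega) (by omega)) (fun i₁ hi₁ h => by
            have h3 := hav (i + j - Lf u + i₁) (by omega)
            rw [show s + (i + j - Lf u + i₁) = s + i + j - Lf u + i₁ by omega] at h3
            apply h3
            rw [hF', Finset.mem_union]
            exact Or.inr (Finset.mem_biUnion.mpr ⟨u, huU, h⟩))
        have h4 := gap_le (n := s + i + j) (j := s + i + j - Lf u + i') (by omega)
          (by rw [hi'', hu])
        rw [← Nat.add_assoc]
        omega
  choose F C B hFA hFC using hstep
  set J := Lf v with hJ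
  set F₀ := (range (J + 1)).biUnion F ∪ E v with hF₀
  set C₀ := (range (J + 1)).sup C with hC₀
  set B₀ := (range (J + 1)).sup B + J with hB₀
  have hF₀A : (F₀ : Set ℕ) ⊆ A := by
    intro x hx
    rw [Finset.mem_coe, hF₀, Finset.mem_union, Finset.mem_biUnion] at hx
    rcases hx with ⟨j, _, hx⟩ | hx
    · exact hFA j (Finset.mem_coe.mpr hx)
    · exact hEA v hv (Finset.mem_coe.mpr hx)
  obtain ⟨s, hs, hav⟩ := hPA F₀ hF₀A (B₀ + (maxLen (C₀ + 1) + 1))
  have hbd : ∀ m, B₀ ≤ m → m < B₀ + (maxLen (C₀ + 1) + 1) → a (s + m) ≤ C₀ := by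
    intro m hm1 hm2
    obtain ⟨i, hi, hi2⟩ := hEf v hv (s + m - J) (hs.mono (by omega) (by omega))
      (fun i₁ hi₁ h => by
        have h3 := hav (m - J + i₁) (by omega)
        rw [show s + (m - J + i₁) = s + m - J + i₁ by omega] at h3
        apply h3
        rw [hF₀, Finset.mem_union]
        exact Or.inr h)
    have hj : J - i ∈ range (J + 1) := Finset.mem_range.mpr (by omega)
    have hBj : B (J - i) ≤ (range (J + 1)).sup B := Finset.le_sup (f := B) hj
    have hCj : C (J - i) ≤ C₀ := Finset.le_sup (f := C) hj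
    have h5 := hFC (J - i) s _ hs (fun i₁ hi₁ h => by
        apply hav i₁ hi₁
        rw [hF₀, Finset.mem_union]
        exact Or.inl (Finset.mem_biUnion.mpr ⟨_, hj, h⟩)) (m - (J - i)) (by omega) (by omega)
      (by rw [← hi2]; congr 1; omega)
    rw [show s + (m - (J - i)) + (J - i) = s + m by omega] at h5
    omega
  have hw := window_le (C₀ + 1) (s + B₀) (s + B₀ + (maxLen (C₀ + 1) + 1)) (by
    have h6 : (Ico (s + B₀) (s + B₀ + (maxLen (C₀ + 1) + 1))).image a ⊆ range (C₀ + 1) := by
      intro x hx
      rw [Finset.mem_image] at hx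
      obtain ⟨m, hm, rfl⟩ := hx
      rw [Finset.mem_Ico] at hm
      have := hbd (m - s) (by omega) (by omega)
      rw [show s + (m - s) = m by omega] at this
      exact Finset.mem_range.mpr (by omega)
    have h7 := Finset.card_le_card h6
    rw [Finset.card_range] at h7
    exact h7)
  omega

/-- Runs of `N` consecutive terms larger than `N` occur with bounded gaps. -/
theorem large_runs (N : ℕ) : ∃ M : ℕ, ∀ s, ∃ n, s ≤ n ∧ n ≤ s + M ∧ ∀ i < N, N < a (n + i) := by
  by_contra hc
  push Not at hc
  apply no_bad N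
  intro L
  obtain ⟨s, hs⟩ := hc L
  exact ⟨s, fun n hn1 hn2 => hs n hn1 (by omega)⟩

end Pool.Agent.Work.MP_10bfef_nt_helper63
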