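import Pool.Agent.Work.MP_10bfef_nt_helper63.Basic

/-!
# Van Eck's sequence: the number of distinct values in a window
-/

namespace Pool.Agent.Work.MP_10bfef_nt_helper63

open N913ddd84 Finset

/-- The first position `≥ n` at which the value `z` occurs. -/
noncomputable def first (n z : ℕ) : ℕ := sInf {m | n ≤ m ∧ a m = z}

lemma first_spec {n z : ℕ} (h : ∃ m, n ≤ m ∧ a m = z) : n ≤ first n z ∧ a (first n z) = z :=
  Nat.sInf_mem (s := {m | n ≤ m ∧ a m = z}) h

lemma first_le {n z m : ℕ} (h1 : n ≤ m) (h2 : a m = z) : first n z ≤ m :=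
  Nat.sInf_le ⟨h1, h2⟩

lemma first_eq {n i z : ℕ} (hz : a (n + i) = z) (h : ∀ j < i, a (n + j) ≠ z) :
    first n z = n + i := by
  apply le_antisymm (first_le (by omega) hz)
  obtain ⟨h1, h2⟩ := first_spec (n := n) (z := z) ⟨n + i, by omega, hz⟩
  by_contra hc
  push Not at hc
  apply h (first n z - n) (by omega)
  rw [show n + (first n z - n) = first n z by omega, h2]

/-- Equality of the codes of two positions forces equality of the suffixes of the window. -/
lemma suffix_eq {e n n' : ℕ} (h0 : a n = a n')
    (hcode : ∀ i, n' + i < e → a (first n (a (n' + i)) + 1) = a (first n' (a (n' + i)) + 1)) :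
    ∀ i, n' + i < e → a (n + i) = a (n' + i) := by
  intro i
  induction i using Nat.strong_induction_on with
  | _ i ih =>
    intro hi
    rcases i with _ | i
    · simpa using h0
    have hii : a (n + i) = a (n' + i) := ih i (by omega) (by omega)
    by_cases hocc : ∃ j, j < i ∧ a (n' + j) = a (n' + i)
    · obtain ⟨j, hj1, hj2⟩ := hocc
      have hle := gap_le (n := n' + i) (j := n' + j) (by omega) hj2
      have hne : a (n' + i + 1) ≠ 0 := fun h => new_of_zero h (n' + j) (by omega) hj2
      obtain ⟨h3, h4, h5⟩ := gap_spec hne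
      have h6 : a (n + i + 1) = n + i - (n + i - a (n' + i + 1)) := by
        apply gap_eq (by omega)
        · have h7 := ih (i - a (n' + i + 1)) (by omega) (by omega)
          rw [show n' + (i - a (n' + i + 1)) = n' + i - a (n' + i + 1) by omega, h4] at h7
          rw [show n + i - a (n' + i + 1) = n + (i - a (n' + i + 1)) by omega, h7, hii]
        · intro k hk1 hk2 hk3
          have h8 := ih (k - n) (by omega) (by omega)
          rw [show n + (k - n) = k by omega, hk3, hii] at h8
          exact h5 (n' + (k - n)) (by omega) (by omega) h8.symm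
      rw [← Nat.add_assoc, ← Nat.add_assoc, h6]
      omega
    · push Not at hocc
      have hf' : first n' (a (n' + i)) = n' + i := first_eq rfl hocc
      have hf : first n (a (n' + i)) = n + i := by
        apply first_eq hii
        intro j hj
        rw [ih j (by omega) (by omega)]
        exact hocc j hj
      have h9 := hcode i (by omega)
      rw [hf, hf'] at h9
      exact h9

/-- An upper bound for the length of a window with at most `k` distinct values. -/
def maxLen : ℕ → ℕ
  | 0 => 0
  | k + 1 => (k + 1) ^ (k + 2) + maxLen k + 1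

theorem window_le (k : ℕ) : ∀ s e : ℕ, ((Ico s e).image a).card ≤ k → e - s ≤ maxLen k := by
  classical
  induction k with
  | zero =>
    intro s e h
    have h1 : (Ico s e).image a = ∅ := Finset.card_eq_zero.mp (by omega)
    rw [Finset.image_eq_empty, Finset.Ico_eq_empty_iff] at h1
    simp only [maxLen]
    omega
  | succ k ih =>
    intro s e h
    set A := (Ico s e).image a with hA
    have hmemA : ∀ x, s ≤ x → x < e → a x ∈ A := fun x h1 h2 =>
      Finset.mem_image_of_mem a (Finset.mem_Ico.mpr ⟨h1, h2⟩)
    set G := (Ico s e).filter (fun n => ∀ x ∈ Ico s e, ∃ m, n ≤ m ∧ m + 1 < e ∧ a m = a x)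
      with hG
    have hGs : ∀ n ∈ G, s ≤ n ∧ n < e ∧ ∀ x ∈ Ico s e, ∃ m, n ≤ m ∧ m + 1 < e ∧ a m = a x := by
      intro n hn
      rw [hG, Finset.mem_filter, Finset.mem_Ico] at hn
      exact ⟨hn.1.1, hn.1.2, hn.2⟩
    have hcodeA : ∀ n ∈ G, ∀ z ∈ A, a (first n z + 1) ∈ A := by
      intro n hn z hz
      obtain ⟨h1, h2, h3⟩ := hGs n hn
      rw [hA, Finset.mem_image] at hz
      obtain ⟨x, hx, rfl⟩ := hz
      obtain ⟨m, hm1, hm2, hm3⟩ := h3 x hx
      have h4 := first_le hm1 hm3
      have h5 := (first_spec ⟨m, hm1, hm3⟩).1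
      exact hmemA _ (by omega) (by omega)
    have key : ∀ n ∈ G, ∀ n' ∈ G, n < n' → a n = a n' →
        (∀ z ∈ A, a (first n z + 1) = a (first n' z + 1)) → False := by
      intro n hn n' hn' hlt h0 hc
      obtain ⟨h1, h2, h3⟩ := hGs n hn
      obtain ⟨h1', h2', h3'⟩ := hGs n' hn'
      have heq := suffix_eq (e := e) h0 (fun i hi => hc _ (hmemA _ (by omega) hi))
      obtain ⟨m, hm1, hm2, hm3⟩ := h3' n' (Finset.mem_Ico.mpr ⟨h1', h2'⟩)
      exact no_repeat (s := s) (e := e) h1 hlt (by omega)
        (fun x hx1 hx2 => h3' x (Finset.mem_Ico.mpr ⟨hx1, by omega⟩)) heq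
    have hcard : G.card ≤ (k + 1) ^ (k + 2) := by
      let code : G → A × (A → A) := fun n =>
        (⟨a n, hmemA _ (hGs n n.2).1 (hGs n n.2).2.1⟩,
          fun z => ⟨a (first n z + 1), hcodeA n n.2 z z.2⟩)
      have hinj : Function.Injective code := by
        intro n n' hnn
        have h1 : a n = a n' := by
          have := congrArg (fun c => (c.1 : ℕ)) hnn
          simpa [code] using this
        have h2 : ∀ z ∈ A, a (first n z + 1) = a (first n' z + 1) := by
          intro z hz
          have := congrArg (fun c => ((c.2 ⟨z, hz⟩ : A) : ℕ)) hnn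
          simpa [code] using this
        apply Subtype.ext
        rcases lt_trichotomy (n : ℕ) (n' : ℕ) with h | h | h
        · exact (key n n.2 n' n'.2 h h1 h2).elim
        · exact h
        · exact (key n' n'.2 n n.2 h h1.symm (fun z hz => (h2 z hz).symm)).elim
      have h3 := Fintype.card_le_of_injective code hinj
      rw [Fintype.card_coe, Fintype.card_prod, Fintype.card_fun, Fintype.card_coe] at h3
      calc G.card ≤ A.card * A.card ^ A.card := h3
        _ = A.card ^ (A.card + 1) := by ring
        _ ≤ (k + 1) ^ (A.card + 1) := Nat.pow_le_pow_left h _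
        _ ≤ (k + 1) ^ (k + 2) := Nat.pow_le_pow_right (by omega) (by omega)
    by_cases hB : (Ico s e \ G).Nonempty
    · set n₁ := (Ico s e \ G).min' hB with hn₁
      have hmem := Finset.min'_mem _ hB
      rw [← hn₁, Finset.mem_sdiff, Finset.mem_Ico] at hmem
      obtain ⟨⟨h1, h2⟩, h3⟩ := hmem
      have h4 : ∃ x ∈ Ico s e, ∀ m, n₁ ≤ m → m + 1 < e → a m ≠ a x := by
        by_contra hc
        push Not at hc
        apply h3
        rw [hG, Finset.mem_filter, Finset.mem_Ico]
        exact ⟨⟨h1, h2⟩, hc⟩
      obtain ⟨x, hx, hx2⟩ := h4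
      have h5 : ((Ico n₁ (e - 1)).image a).card ≤ k := by
        have h6 : (Ico n₁ (e - 1)).image a ⊆ A.erase (a x) := by
          intro z hz
          rw [Finset.mem_image] at hz
          obtain ⟨m, hm, rfl⟩ := hz
          rw [Finset.mem_Ico] at hm
          rw [Finset.mem_erase]
          exact ⟨hx2 m hm.1 (by omega), hmemA m (by omega) (by omega)⟩
        have h7 := Finset.card_le_card h6
        have hxA : a x ∈ A := Finset.mem_image_of_mem a hx
        rw [Finset.card_erase_of_mem hxA] at h7
        omega
      have h8 := ih _ _ h5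
      have h9 : Ico s e ⊆ G ∪ Ico n₁ e := by
        intro n hn
        rw [Finset.mem_union]
        by_cases hnG : n ∈ G
        · exact Or.inl hnG
        · right
          have := Finset.min'_le _ n (Finset.mem_sdiff.mpr ⟨hn, hnG⟩)
          rw [← hn₁] at this
          rw [Finset.mem_Ico] at hn ⊢
          exact ⟨this, hn.2⟩
      have h10 := (Finset.card_le_card h9).trans (Finset.card_union_le _ _)
      rw [Nat.card_Ico, Nat.card_Ico] at h10
      simp only [maxLen]
      omega
    · have h1 : Ico s e ⊆ G := by
        intro n hn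
        by_contra hc
        exact hB ⟨n, Finset.mem_sdiff.mpr ⟨hn, hc⟩⟩
      have h2 := Finset.card_le_card h1
      rw [Nat.card_Ico] at h2
      simp only [maxLen]
      omega

lemma maxLen_le (k : ℕ) : maxLen k ≤ 2 * k ^ (k + 1) := by
  induction k with
  | zero => simp [maxLen]
  | succ k ih =>
    simp only [maxLen]
    rcases Nat.eq_zero_or_pos k with rfl | hk
    · simp [maxLen]
    · have h1 : k ^ (k + 1) ≤ (k + 1) ^ (k + 1) := Nat.pow_le_pow_left (by omega) _
      have h2 : (k + 1) ^ (k + 2) = (k + 1) * (k + 1) ^ (k + 1) := by ring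
      have h3 : 4 ≤ (k + 1) ^ (k + 1) := by
        calc 4 = 2 ^ 2 := by norm_num
          _ ≤ (k + 1) ^ 2 := Nat.pow_le_pow_left (by omega) _
          _ ≤ (k + 1) ^ (k + 1) := Nat.pow_le_pow_right (by omega) (by omega)
      rcases Nat.lt_or_ge k 2 with h4 | h4
      · obtain rfl : k = 1 := by omega
        simp [maxLen]
      · have h5 : 3 * (k + 1) ^ (k + 1) ≤ (k + 1) * (k + 1) ^ (k + 1) :=
          Nat.mul_le_mul_right _ (by omega)
        rw [show k + 1 + 1 = k + 2 by rfl, h2]
        omega

/-- A window of `N` consecutive terms with `D` distinct values satisfies `N ≤ 2 D^(D+1)`. -/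
theorem card_bound (s N : ℕ) :
    N ≤ 2 * ((Ico s (s + N)).image a).card ^ (((Ico s (s + N)).image a).card + 1) := by
  have h := window_le _ s (s + N) le_rfl
  have h2 := maxLen_le ((Ico s (s + N)).image a).card
  omega

end Pool.Agent.Work.MP_10bfef_nt_helper63
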